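import Mathlib

/-!
# SMITH-L: Smith's method at an odd prime `l` (MP_48b749_nt, MP_950c68_ag): abstract structure

Version of `Lib/SmN/Sys.lean` for an odd prime `l`: `G` = absolute Galois group of the global
function field `K` (containing the `l`-th roots of unity), `V` = a discrete `G`-module which is also
a module over the commutative ring `A` with an element `ze` (a primitive `l`-th root of unity),
`lam = 1 - ze`; every element of `V` is killed by a power of `lam`. The twist by the character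
`chi : G → ZMod l` is the action `s * Q = ze ^ chi(s) s Q`.

`V1` = `V[lam]` with the action `ac`. `e` is the pairing on `V1`, `e w w' = se * e w' w` with
`se = 1` or `se = -1`. Because of the automorphism `ze ↦ ze⁻¹` the dual of the twist by `chi` is
again the twist by `chi` up to this automorphism, and `V1` does not see it: all pairings are pairings
of cocycles with values in `V1`.

`inv v c` = the local invariant of the 2-cocycle `c` (only the values on `S.D v` matter);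
`sy v` is the local pairing `H^1(K_v, V1) × H^1(K_v, V1) → ZMod l`, `inv v (e (x ∪ y))`, in terms of
the pairs of values at `sg v`, `phi v` of the cocycles; it matters on `S.CP v` only, outside it is
extended arbitrarily as a bilinear form.

PORT from `SmN`: `ZMod 2` becomes `ZMod l`, `(2 : ℕ) • Q` becomes `S.lam • Q`, `(2 : ℕ) ^ j • Q`
becomes `S.lam ^ j • Q`, `tw chi` becomes `S.tw chi`, `dl chi` becomes `S.dl chi`.
-/

set_option autoImplicit false

namespace Pool.Agent.SmL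

/-- The data. `NN` = a family of open normal subgroups of `G` (closed under intersection);
`D v` = decomposition group, `phi v` = Frobenius, `sg v` = tame generator,
`iota` = the inclusion of `V[lam]`, `ac` = the action on it, `e` = the pairing, `se` = its sign,
`sy v` = the local pairing, `inv v` = the local invariant, `good` = the good places (all but
finitely many). -/
structure Sys (l : ℕ) (A G V V1 Pl : Type*) [CommRing A] [Group G] [AddCommGroup V] [Module A V]
    [DistribMulAction G V] [AddCommGroup V1] [Module (ZMod l) V1] where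
  ze : A
  se : ZMod l
  NN : Set (Subgroup G)
  D : Pl → Subgroup G
  phi : Pl → G
  sg : Pl → G
  iota : V1 →+ V
  ac : G →* (V1 ≃ₗ[ZMod l] V1)
  e : V1 →ₗ[ZMod l] V1 →ₗ[ZMod l] ZMod l
  sy : Pl → (V1 × V1 →ₗ[ZMod l] V1 × V1 →ₗ[ZMod l] ZMod l)
  inv : Pl → (G → G → ZMod l) → ZMod l
  good : Set Pl

section

variable {l : ℕ} {A G V V1 Pl : Type*} [CommRing A] [Group G] [AddCommGroup V] [Module A V]
  [DistribMulAction G V] [AddCommGroup V1] [Module (ZMod l) V1]

namespace Sys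

variable (S : Sys l A G V V1 Pl)

/-- `lam = 1 - ze`. -/
def lam : A := 1 - S.ze

/-- `ze ^ a`. -/
def zz (a : ZMod l) : A := S.ze ^ a.val

/-- The element `uu a = 1 + ze + ... + ze ^ (a - 1)`: `1 - zz a = lam * uu a`, and `uu a` acts on
`V[lam]` as `a`. -/
def uu (a : ZMod l) : A := ∑ i ∈ Finset.range a.val, S.ze ^ i

/-- The twisted action `s * Q = ze ^ chi(s) s Q`. -/
def tw (chi : G → ZMod l) (s : G) (Q : V) : V := S.zz (chi s) • (s • Q)

/-- The twisted coboundary of `Q`. -/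
def dl (chi : G → ZMod l) (Q : V) (s : G) : V := S.tw chi s Q - Q

/-- `NN`-finite functions on `G`. -/
def TF {α : Type*} (f : G → α) : Prop := ∃ N ∈ S.NN, ∀ s, ∀ n ∈ N, f (s * n) = f s

/-- `NN`-finite functions on a subgroup `H` (values outside `H` irrelevant). -/
def TFOn {α : Type*} (H : Subgroup G) (f : G → α) : Prop :=
  ∃ N ∈ S.NN, ∀ s ∈ H, ∀ n ∈ N, n ∈ H → f (s * n) = f s

/-- `NN`-finite functions of two variables. -/
def TF2 {α : Type*} (c : G → G → α) : Prop :=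
  ∃ N ∈ S.NN, ∀ s t, ∀ n ∈ N, ∀ m ∈ N, c (s * n) (t * m) = c s t

/-- `NN`-finite functions of two variables on a subgroup `H` (other values irrelevant). -/
def TF2On {α : Type*} (H : Subgroup G) (c : G → G → α) : Prop :=
  ∃ N ∈ S.NN, ∀ s ∈ H, ∀ t ∈ H, ∀ n ∈ N, n ∈ H → ∀ m ∈ N, m ∈ H → c (s * n) (t * m) = c s t

/-- `Hom(G, B)` (trivial action). -/
def HomG {B : Type*} [AddCommGroup B] (c : G → B) : Prop :=
  S.TF c ∧ ∀ s t, c (s * t) = c s + c t

/-- The cocycles of `G` with values in `V1`. -/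
def CocG (b : G → V1) : Prop :=
  S.TF b ∧ ∀ s t, b (s * t) = b s + S.ac s (b t)

/-- The 2-cocycles of `G` with values in `ZMod l` (trivial action). -/
def Coc2 (c : G → G → ZMod l) : Prop :=
  S.TF2 c ∧ ∀ s t w, c s t + c (s * t) w = c t w + c s (t * w)

/-- The 2-cocycles of `D v` with values in `ZMod l` (trivial action). -/
def Coc2On (v : Pl) (c : G → G → ZMod l) : Prop :=
  S.TF2On (S.D v) c ∧ ∀ s ∈ S.D v, ∀ t ∈ S.D v, ∀ w ∈ S.D v,
    c s t + c (s * t) w = c t w + c s (t * w)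

/-- The pair of values at the place `v`. -/
def loc (v : Pl) (c : G → V1) : V1 × V1 := (c (S.sg v), c (S.phi v))

/-- The cocycles of `D v` with values in `V1`. -/
def CocV (v : Pl) (c : G → V1) : Prop :=
  S.TFOn (S.D v) c ∧ ∀ s ∈ S.D v, ∀ t ∈ S.D v, c (s * t) = c s + S.ac s (c t)

/-- The pairs of values of the cocycles on `D v` with values in `V1`. -/
def CP (v : Pl) : Set (V1 × V1) :=
  {x | ∃ c : G → V1, S.CocV v c ∧ S.loc v c = x}

/-- The pair of values of the coboundary of `z`. -/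
def cob (v : Pl) (z : V1) : V1 × V1 := (S.ac (S.sg v) z - z, S.ac (S.phi v) z - z)

/-- Twisted cocycles on the decomposition group at `v` (any twisted cocycle, no local
condition). -/
structure CocD (chi : G → ZMod l) (v : Pl) (c : G → V) : Prop where
  tf : S.TFOn (S.D v) c
  coc : ∀ s ∈ S.D v, ∀ t ∈ S.D v, c (s * t) = c s + S.tw chi s (c t)

/-- `c ∈ Z_v(chi)`: on `D v` the function `c` is a coboundary in `V`. -/
def Zv (chi : G → ZMod l) (v : Pl) (c : G → V) : Prop := ∃ Q : V, ∀ s ∈ S.D v, c s = S.dl chi Q s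

/-- Selmer cocycles of level `j` for the twist `chi`: cocycles with values in `V[lam^j]`
which are coboundaries in `V` on every decomposition group. -/
structure IsSel (chi : G → ZMod l) (j : ℕ) (Psi : G → V) : Prop where
  tf : S.TF Psi
  coc : ∀ s t, Psi (s * t) = Psi s + S.tw chi s (Psi t)
  lev : ∀ s, S.lam ^ j • Psi s = 0
  loc : ∀ v, S.Zv chi v Psi

/-- The local Kummer group `W_v(chi)` of the twist at `v`, as a set of pairs of values
(it contains the pairs of the coboundaries). -/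
def Wl (chi : G → ZMod l) (v : Pl) : Set (V1 × V1) :=
  {x | ∃ Q : V, (∀ s ∈ S.D v, S.lam • S.dl chi Q s = 0) ∧
    S.dl chi Q (S.sg v) = S.iota x.1 ∧ S.dl chi Q (S.phi v) = S.iota x.2}

/-- The cocycles in the `lam`-Selmer group. -/
def IsSel1 (chi : G → ZMod l) (b : G → V1) : Prop :=
  S.CocG b ∧ ∀ v, S.loc v b ∈ S.Wl chi v

/-- Everything the arithmetic blocks deliver to G, H, I. -/
structure Ok : Prop where
  prime : l.Prime
  odd : l ≠ 2
  ze_pow : S.ze ^ l = 1
  /-- `G` acts by `A`-linear maps -/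
  smul_comm : ∀ (s : G) (a : A) (Q : V), s • (a • Q) = a • (s • Q)
  top_mem : ⊤ ∈ S.NN
  inf_mem : ∀ N ∈ S.NN, ∀ N' ∈ S.NN, N ⊓ N' ∈ S.NN
  normal : ∀ N ∈ S.NN, N.Normal
  phi_mem : ∀ v, S.phi v ∈ S.D v
  sg_mem : ∀ v, S.sg v ∈ S.D v
  /-- tameness: `D v` is generated by `phi v` and `sg v` modulo every `N` -/
  gen : ∀ v, ∀ N ∈ S.NN, ∀ s ∈ S.D v, ∃ t ∈ Subgroup.closure {S.phi v, S.sg v}, t⁻¹ * s ∈ N
  /-- the relation `phi sg phi⁻¹ = sg ^ q` modulo every `N` -/
  frob : ∀ v, ∀ N ∈ S.NN, ∃ q : ℕ, (q : ZMod l) = 1 ∧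
    (S.sg v ^ q)⁻¹ * (S.phi v * S.sg v * (S.phi v)⁻¹) ∈ N
  fin1 : Finite V1
  /-- the form -/
  se_eq : S.se = 1 ∨ S.se = -1
  e_symm : ∀ w w', S.e w w' = S.se * S.e w' w
  e_nondeg : ∀ w, (∀ w', S.e w w' = 0) → w = 0
  e_inv : ∀ s w w', S.e (S.ac s w) (S.ac s w') = S.e w w'
  /-- the module `V` -/
  iota_inj : Function.Injective S.iota
  lam_iota : ∀ w, S.lam • S.iota w = 0
  iota_range : ∀ Q : V, S.lam • Q = 0 → ∃ w, S.iota w = Q
  iota_ac : ∀ (s : G) (w : V1), s • S.iota w = S.iota (S.ac s w)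
  half : ∀ Q : V, ∃ R, S.lam • R = Q
  tors : ∀ Q : V, ∃ j : ℕ, S.lam ^ j • Q = 0
  act_fin : ∀ j : ℕ, ∃ N ∈ S.NN, ∀ s ∈ N, ∀ Q : V, S.lam ^ j • Q = 0 → s • Q = Q
  /-- almost all places are unramified in a given finite extension -/
  unr : ∀ N ∈ S.NN, {v | S.sg v ∉ N}.Finite
  good_fin : S.goodᶜ.Finite
  good_triv : ∀ v ∈ S.good, ∀ Q : V, S.sg v • Q = Q
  /-- the Hasse principle for `H^2(K, V1)` -/
  hasse : ∀ c : G → G → V1, S.TF2 c →
    (∀ s t w, c s t + c (s * t) w = S.ac s (c t w) + c s (t * w)) →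
    (∀ v, ∃ b : G → V1, S.TFOn (S.D v) b ∧
      ∀ s ∈ S.D v, ∀ t ∈ S.D v, c s t = b s + S.ac s (b t) - b (s * t)) →
    ∃ b : G → V1, S.TF b ∧ ∀ s t, c s t = b s + S.ac s (b t) - b (s * t)
  /-- the local pairing is symmetric or antisymmetric -/
  sy_comm : ∀ v, ∀ x ∈ S.CP v, ∀ y ∈ S.CP v, S.sy v x y = -(S.se * S.sy v y x)
  /-- the coboundaries are in the radical -/
  sy_cob : ∀ v, ∀ x ∈ S.CP v, ∀ z, S.sy v x (S.cob v z) = 0
  /-- the local pairing at a good place when the first cocycle is unramified -/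
  sy_unr : ∀ v ∈ S.good, ∀ x ∈ S.CP v, ∀ y ∈ S.CP v, x.1 = 0 → S.sy v x y = S.e x.2 y.1
  /-- the local pairing at a good place which splits in `K(V1)` -/
  sy_split : ∀ v ∈ S.good, S.ac (S.phi v) = 1 → ∀ x y : V1 × V1,
    S.sy v x y = S.e x.2 y.1 - S.e x.1 y.2
  /-- the local invariant -/
  inv_congr : ∀ v (c c' : G → G → ZMod l), (∀ s ∈ S.D v, ∀ t ∈ S.D v, c s t = c' s t) →
    S.inv v c = S.inv v c'
  inv_add : ∀ v (c c' : G → G → ZMod l), S.Coc2On v c → S.Coc2On v c' →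
    S.inv v (fun s t => c s t + c' s t) = S.inv v c + S.inv v c'
  inv_cob : ∀ v (f : G → ZMod l), S.TFOn (S.D v) f →
    S.inv v (fun s t => f s + f t - f (s * t)) = 0
  /-- `sy` is the cup product -/
  inv_sy : ∀ v (x y : G → V1), S.CocV v x → S.CocV v y →
    S.inv v (fun s t => S.e (x s) (S.ac s (y t))) = S.sy v (S.loc v x) (S.loc v y)
  /-- unramified classes at a good place have invariant zero -/
  inv_unr : ∀ v ∈ S.good, ∀ c : G → G → ZMod l, S.Coc2On v c →
    (∀ s ∈ S.D v, ∀ t ∈ S.D v, c (s * S.sg v) t = c s t ∧ c (S.sg v * s) t = c s t ∧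
      c s (t * S.sg v) = c s t ∧ c s (S.sg v * t) = c s t) → S.inv v c = 0
  /-- reciprocity for `H^2(K, ZMod l)` -/
  recip2 : ∀ c : G → G → ZMod l, S.Coc2 c → {v | S.inv v c ≠ 0}.Finite ∧
    ∑ᶠ v, S.inv v c = 0
  /-- reciprocity for the cocycles with values in `V1` -/
  recip : ∀ c d : G → V1, S.CocG c → S.CocG d →
    ∑ᶠ v, S.sy v (S.loc v c) (S.loc v d) = 0
  /-- correction (at the good places only; nothing is said at the bad places) -/
  corr : ∀ w : Pl → V1, {v | w v ≠ 0}.Finite → (∀ v ∈ S.good, S.ac (S.phi v) (w v) = w v) →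
    ∃ c : G → V1, S.CocG c ∧ ∀ v ∈ S.good, c (S.sg v) = w v
  /-- duality -/
  dual : ∀ W : Pl → AddSubgroup (V1 × V1), (∀ v, (W v : Set (V1 × V1)) ⊆ S.CP v) →
    (∀ v z, S.cob v z ∈ W v) → (∀ v, Nat.card (W v) = Nat.card V1) →
    (∀ v, ∀ x ∈ W v, ∀ y ∈ W v, S.sy v x y = 0) →
    {v | ¬ ∀ x : V1 × V1, x ∈ W v ↔ x.1 = 0}.Finite →
    ∀ xi : Pl → V1 × V1, (∀ v, xi v ∈ S.CP v) → {v | xi v ∉ W v}.Finite →
    (∀ b : G → V1, S.CocG b → (∀ v, S.loc v b ∈ W v) →
      ∑ᶠ v, S.sy v (xi v) (S.loc v b) = 0) →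
    ∃ om : G → V1, S.CocG om ∧ ∀ v, S.loc v om - xi v ∈ W v
  /-- purity -/
  fin_inv : ∀ chi : G → ZMod l, S.HomG chi → ∀ v,
    {Q : V | ∀ s ∈ S.D v, S.dl chi Q s = 0}.Finite
  /-- the Kummer groups are isotropic -/
  isot : ∀ chi : G → ZMod l, S.HomG chi → ∀ v, ∀ x ∈ S.Wl chi v, ∀ y ∈ S.Wl chi v,
    S.sy v x y = 0

end Sys

end

end Pool.Agent.SmL
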